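import Pool.Agent.R377.PA.Diamond

set_option autoImplicit false

/-!
Colourings with acyclic colour classes: adding vertices, reducible configurations.
-/

namespace Pool.Agent.R377.PA

open Finset SimpleGraph

open Classical

variable {V : Type} (G : SimpleGraph V) {m : ℕ}

/-- every nonempty monochromatic subset of `U` has a vertex with at most one neighbour in it -/
def Good (U : Finset V) (c : V → Fin m) : Prop :=
  ∀ Z ⊆ U, Z.Nonempty → (∀ u ∈ Z, ∀ v ∈ Z, c u = c v) → ∃ v ∈ Z, (Z.filter (G.Adj v)).card ≤ 1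

/-- the number of neighbours of `v` of colour `j` in `U` -/
noncomputable def cnt (U : Finset V) (c : V → Fin m) (v : V) (j : Fin m) : ℕ :=
  (U.filter fun w => G.Adj v w ∧ c w = j).card

theorem good_insert {U : Finset V} {c : V → Fin m} (h : Good G U c) {u : V} (hu : u ∉ U)
    {j : Fin m} (hj : cnt G U c u j ≤ 1) : Good G (insert u U) (Function.update c u j) := by
  intro Z hZ hne hmono
  by_cases huZ : u ∈ Z
  · refine ⟨u, huZ, le_trans (Finset.card_le_card ?_) hj⟩
    intro w hw
    obtain ⟨hw1, hw2⟩ := Finset.mem_filter.mp hw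
    have hwu : w ≠ u := hw2.ne'
    refine Finset.mem_filter.mpr ⟨?_, hw2, ?_⟩
    · exact (Finset.mem_insert.mp (hZ hw1)).resolve_left hwu
    · have := hmono w hw1 u huZ
      rwa [Function.update_of_ne hwu, Function.update_self] at this
  · have hZU : Z ⊆ U := fun w hw => (Finset.mem_insert.mp (hZ hw)).resolve_left
      (fun h => huZ (h ▸ hw))
    refine h Z hZU hne ?_
    intro x hx y hy
    have h1 : x ≠ u := fun h => huZ (h ▸ hx)
    have h2 : y ≠ u := fun h => huZ (h ▸ hy)
    have := hmono x hx y hy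
    rwa [Function.update_of_ne h1, Function.update_of_ne h2] at this

theorem good_mono {U U' : Finset V} {c : V → Fin m} (h : Good G U' c) (hU : U ⊆ U') :
    Good G U c := fun Z hZ hne hmono => h Z (hZ.trans hU) hne hmono

theorem cnt_insert {U : Finset V} {c : V → Fin m} {u : V} (hu : u ∉ U) (j : Fin m) (v : V)
    (k : Fin m) : cnt G (insert u U) (Function.update c u j) v k ≤
      cnt G U c v k + (if G.Adj v u then ε j k else 0) := by
  unfold cnt
  have h1 : (insert u U).filter (fun w => G.Adj v w ∧ Function.update c u j w = k) ⊆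
      (U.filter fun w => G.Adj v w ∧ c w = k) ∪ (if G.Adj v u ∧ j = k then {u} else ∅) := by
    intro w hw
    obtain ⟨hw1, hw2, hw3⟩ := Finset.mem_filter.mp hw
    rw [Finset.mem_union]
    by_cases hwu : w = u
    · subst hwu
      rw [Function.update_self] at hw3
      right
      rw [if_pos ⟨hw2, hw3⟩]
      simp
    · left
      rw [Function.update_of_ne hwu] at hw3
      exact Finset.mem_filter.mpr ⟨(Finset.mem_insert.mp hw1).resolve_left hwu, hw2, hw3⟩
  refine (Finset.card_le_card h1).trans ((Finset.card_union_le _ _).trans ?_)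
  gcongr
  by_cases h2 : G.Adj v u <;> by_cases h3 : j = k <;> simp [h2, h3, ε]

theorem sum_cnt (U : Finset V) (c : V → Fin m) (v : V) :
    ∑ j, cnt G U c v j = (U.filter (G.Adj v)).card := by
  unfold cnt
  rw [Finset.card_eq_sum_card_fiberwise (f := c) (t := univ) (fun _ _ => Finset.mem_univ _)]
  refine Finset.sum_congr rfl fun j _ => ?_
  rw [Finset.filter_filter]

theorem extend4 {U : Finset V} {c : V → Fin m} (h : Good G U c) {u1 u2 u3 u4 : V}
    (h1 : u1 ∉ U) (h2 : u2 ∉ insert u1 U) (h3 : u3 ∉ insert u2 (insert u1 U))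
    (h4 : u4 ∉ insert u3 (insert u2 (insert u1 U))) {j1 j2 j3 j4 : Fin m}
    (k1 : cnt G U c u1 j1 ≤ 1)
    (k2 : cnt G U c u2 j2 + (if G.Adj u2 u1 then ε j1 j2 else 0) ≤ 1)
    (k3 : cnt G U c u3 j3 + (if G.Adj u3 u1 then ε j1 j3 else 0) +
      (if G.Adj u3 u2 then ε j2 j3 else 0) ≤ 1)
    (k4 : cnt G U c u4 j4 + (if G.Adj u4 u1 then ε j1 j4 else 0) +
      (if G.Adj u4 u2 then ε j2 j4 else 0) + (if G.Adj u4 u3 then ε j3 j4 else 0) ≤ 1) :
    ∃ c' : V → Fin m, Good G (insert u4 (insert u3 (insert u2 (insert u1 U)))) c' := by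
  have g1 := good_insert G h h1 k1
  have e2 := cnt_insert G (c := c) h1 j1 u2 j2
  have g2 := good_insert G g1 h2 (j := j2) (by omega)
  have e3 := cnt_insert G (c := c) h1 j1 u3 j3
  have e3' := cnt_insert G (c := Function.update c u1 j1) h2 j2 u3 j3
  have g3 := good_insert G g2 h3 (j := j3) (by omega)
  have e4 := cnt_insert G (c := c) h1 j1 u4 j4
  have e4' := cnt_insert G (c := Function.update c u1 j1) h2 j2 u4 j4
  have e4'' := cnt_insert G (c := Function.update (Function.update c u1 j1) u2 j2) h3 j3 u4 j4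
  have g4 := good_insert G g3 h4 (j := j4) (by omega)
  exact ⟨_, g4⟩

/-- **The reducible configuration**: two adjacent vertices `a`, `a'` and two non-adjacent common
neighbours `b`, `x`, all of degree at most `2 m`. -/
theorem reducible {U : Finset V} {a a' b x : V} (haU : a ∈ U) (ha'U : a' ∈ U) (hbU : b ∈ U)
    (hxU : x ∈ U) (haa' : G.Adj a a') (hab : G.Adj a b) (ha'b : G.Adj a' b) (hax : G.Adj a x)
    (ha'x : G.Adj a' x) (hbx : ¬ G.Adj b x) (hne : b ≠ x)
    (da : (U.filter (G.Adj a)).card ≤ 2 * m) (da' : (U.filter (G.Adj a')).card ≤ 2 * m)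
    (db : (U.filter (G.Adj b)).card ≤ 2 * m) (dx : (U.filter (G.Adj x)).card ≤ 2 * m)
    (hcol : ∃ c : V → Fin m, Good G (U \ {a, a', b, x}) c) : ∃ c : V → Fin m, Good G U c := by
  obtain ⟨c, hc⟩ := hcol
  set U0 := U \ {a, a', b, x} with hU0
  have naa' := haa'.ne
  have nab := hab.ne
  have na'b := ha'b.ne
  have nax := hax.ne
  have na'x := ha'x.ne
  have hxb : ¬ G.Adj x b := fun h => hbx h.symm
  have sums : ∀ (v : V) (T : Finset V), T ⊆ {a, a', b, x} → (∀ w ∈ T, G.Adj v w) →
      (U.filter (G.Adj v)).card ≤ 2 * m → ∑ j, cnt G U0 c v j + T.card ≤ 2 * m := by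
    intro v T hT hadj hd
    rw [sum_cnt]
    refine le_trans ?_ hd
    rw [← Finset.card_union_of_disjoint]
    · apply Finset.card_le_card
      intro w hw
      rcases Finset.mem_union.mp hw with h | h
      · obtain ⟨h1, h2⟩ := Finset.mem_filter.mp h
        exact Finset.mem_filter.mpr ⟨(Finset.mem_sdiff.mp h1).1, h2⟩
      · refine Finset.mem_filter.mpr ⟨?_, hadj w h⟩
        have := hT h
        simp only [Finset.mem_insert, Finset.mem_singleton] at this
        rcases this with rfl | rfl | rfl | rfl <;> assumption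
    · rw [Finset.disjoint_left]
      intro w h1 h2
      exact (Finset.mem_sdiff.mp (Finset.mem_filter.mp h1).1).2 (hT h2)
  have sa := sums a {a', b, x} (by intro w; simp only [Finset.mem_insert, Finset.mem_singleton]; tauto)
    (by intro w hw; simp only [Finset.mem_insert, Finset.mem_singleton] at hw
        rcases hw with rfl | rfl | rfl <;> assumption) da
  have sa' := sums a' {a, b, x} (by intro w; simp only [Finset.mem_insert, Finset.mem_singleton]; tauto)
    (by intro w hw; simp only [Finset.mem_insert, Finset.mem_singleton] at hw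
        rcases hw with rfl | rfl | rfl
        · exact haa'.symm
        · assumption
        · assumption) da'
  have sb := sums b {a, a'} (by intro w; simp only [Finset.mem_insert, Finset.mem_singleton]; tauto)
    (by intro w hw; simp only [Finset.mem_insert, Finset.mem_singleton] at hw
        rcases hw with rfl | rfl
        · exact hab.symm
        · exact ha'b.symm) db
  have sx := sums x {a, a'} (by intro w; simp only [Finset.mem_insert, Finset.mem_singleton]; tauto)
    (by intro w hw; simp only [Finset.mem_insert, Finset.mem_singleton] at hw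
        rcases hw with rfl | rfl
        · exact hax.symm
        · exact ha'x.symm) dx
  rw [Finset.card_eq_three.mpr ⟨a', b, x, na'b, na'x, hne, rfl⟩] at sa
  rw [Finset.card_eq_three.mpr ⟨a, b, x, nab, nax, hne, rfl⟩] at sa'
  rw [Finset.card_pair naa'] at sb sx
  have hU : ∀ p q r s : V, (∀ w, (w = a ∨ w = a' ∨ w = b ∨ w = x) →
      (w = p ∨ w = q ∨ w = r ∨ w = s)) → ∀ c' : V → Fin m,
      Good G (insert s (insert r (insert q (insert p U0)))) c' → Good G U c' := by
    intro p q r s hs c' h
    refine good_mono G h ?_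
    intro w hw
    simp only [Finset.mem_insert]
    by_cases h2 : w = a ∨ w = a' ∨ w = b ∨ w = x
    · rcases hs w h2 with h3 | h3 | h3 | h3
      · exact Or.inr (Or.inr (Or.inr (Or.inl h3)))
      · exact Or.inr (Or.inr (Or.inl h3))
      · exact Or.inr (Or.inl h3)
      · exact Or.inl h3
    · refine Or.inr (Or.inr (Or.inr (Or.inr ?_)))
      refine Finset.mem_sdiff.mpr ⟨hw, ?_⟩
      simpa only [Finset.mem_insert, Finset.mem_singleton] using h2
  have hn : ∀ w ∈ ({a, a', b, x} : Finset V), w ∉ U0 := fun w hw h =>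
    (Finset.mem_sdiff.mp h).2 hw
  have hna : a ∉ U0 := hn a (by simp)
  have hna' : a' ∉ U0 := hn a' (by simp)
  have hnb : b ∉ U0 := hn b (by simp)
  have hnx : x ∉ U0 := hn x (by simp)
  rcases diamond (cnt G U0 c a) (cnt G U0 c a') (cnt G U0 c b) (cnt G U0 c x) sa sa' sb sx with
    h | h | h | h | h
  · obtain ⟨β, ξ, α', α, h1, h2, h3, h4⟩ := h
    have := extend4 G hc (u1 := b) (u2 := x) (u3 := a') (u4 := a) (j1 := β) (j2 := ξ) (j3 := α')
      (j4 := α) hnb (by simp [hnx, hne.symm]) (by simp [hna', na'x, na'b])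
      (by simp [hna, naa', nax, nab]) h1 (by simp [hxb, h2]) (by simp [ha'b, ha'x]; omega)
      (by simp [hab, hax, haa']; omega)
    obtain ⟨c', hc'⟩ := this
    exact ⟨c', hU b x a' a (by rintro w (h | h | h | h) <;> simp [h]) c' hc'⟩
  · obtain ⟨β, ξ, α', α, h1, h2, h3, h4⟩ := h
    have := extend4 G hc (u1 := b) (u2 := x) (u3 := a) (u4 := a') (j1 := β) (j2 := ξ) (j3 := α')
      (j4 := α) hnb (by simp [hnx, hne.symm]) (by simp [hna, nax, nab])
      (by simp [hna', naa'.symm, na'x, na'b]) h1 (by simp [hxb, h2]) (by simp [hab, hax]; omega)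
      (by simp [ha'b, ha'x, haa'.symm]; omega)
    obtain ⟨c', hc'⟩ := this
    exact ⟨c', hU b x a a' (by rintro w (h | h | h | h) <;> simp [h]) c' hc'⟩
  · obtain ⟨α, α', β, ξ, h1, h2, h3, h4⟩ := h
    have := extend4 G hc (u1 := a) (u2 := a') (u3 := b) (u4 := x) (j1 := α) (j2 := α') (j3 := β)
      (j4 := ξ) hna (by simp [hna', naa'.symm]) (by simp [hnb, nab.symm, na'b.symm])
      (by simp [hnx, hne.symm, nax.symm, na'x.symm]) h1 (by simp [haa'.symm, h2])
      (by simp [hab.symm, ha'b.symm]; omega) (by simp [hax.symm, ha'x.symm, hxb]; omega)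
    obtain ⟨c', hc'⟩ := this
    exact ⟨c', hU a a' b x (fun w h => h) c' hc'⟩
  · obtain ⟨ξ, α, β, α', h1, h2, h3, h4⟩ := h
    have := extend4 G hc (u1 := x) (u2 := a) (u3 := b) (u4 := a') (j1 := ξ) (j2 := α) (j3 := β)
      (j4 := α') hnx (by simp [hna, nax]) (by simp [hnb, nab.symm, hne])
      (by simp [hna', na'b, na'x, naa'.symm]) h1 (by simp [hax, h2])
      (by simp [hbx, hab.symm]; omega) (by simp [ha'x, haa'.symm, ha'b]; omega)
    obtain ⟨c', hc'⟩ := this
    exact ⟨c', hU x a b a' (by rintro w (h | h | h | h) <;> simp [h]) c' hc'⟩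
  · obtain ⟨ξ, α, β, α', h1, h2, h3, h4⟩ := h
    have := extend4 G hc (u1 := b) (u2 := a) (u3 := x) (u4 := a') (j1 := ξ) (j2 := α) (j3 := β)
      (j4 := α') hnb (by simp [hna, nab]) (by simp [hnx, nax.symm, hne.symm])
      (by simp [hna', na'b, na'x, naa'.symm]) h1 (by simp [hab, h2])
      (by simp [hxb, hax.symm]; omega) (by simp [ha'x, haa'.symm, ha'b]; omega)
    obtain ⟨c', hc'⟩ := this
    exact ⟨c', hU b a x a' (by rintro w (h | h | h | h) <;> simp [h]) c' hc'⟩

/-- good colourings have acyclic colour classes -/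
theorem good_acyclic [Fintype V] {c : V → Fin m} (h : Good G univ c) (j : Fin m) :
    (G.induce {v | c v = j}).IsAcyclic := by
  intro v p hp
  set Z : Finset V := p.support.toFinset.image Subtype.val with hZ
  have hne : Z.Nonempty := ⟨v.1, Finset.mem_image.mpr ⟨v, by simp, rfl⟩⟩
  obtain ⟨w, hw, hcard⟩ := h Z (Finset.subset_univ _) hne (by
    intro x hx y hy
    obtain ⟨x', _, rfl⟩ := Finset.mem_image.mp hx
    obtain ⟨y', _, rfl⟩ := Finset.mem_image.mp hy
    rw [x'.2, y'.2])
  obtain ⟨w', hw', rfl⟩ := Finset.mem_image.mp hw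
  rw [List.mem_toFinset] at hw'
  have h2 := hp.ncard_neighborSet_toSubgraph_eq_two hw'
  have h3 : (Subtype.val '' (p.toSubgraph.neighborSet w')) ⊆
      ((Z.filter (G.Adj w'.1) : Finset V) : Set V) := by
    rintro _ ⟨z, hz, rfl⟩
    rw [Finset.mem_coe, Finset.mem_filter]
    refine ⟨Finset.mem_image.mpr ⟨z, ?_, rfl⟩, ?_⟩
    · rw [List.mem_toFinset, ← Walk.mem_verts_toSubgraph]
      exact p.toSubgraph.edge_vert (Subgraph.adj_symm _ hz)
    · exact p.toSubgraph.adj_sub hz
  have h4 := Set.ncard_le_ncard h3 (Finset.finite_toSet _)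
  rw [Set.ncard_image_of_injective _ Subtype.val_injective, h2, Set.ncard_coe_finset] at h4
  omega

end Pool.Agent.R377.PA
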