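import Mathlib

set_option autoImplicit false

/-!
The discharging argument for linear hypergraphs of bounded genus all of whose vertices have a large
degree.
-/

namespace Pool.Agent.R377.PA

open Finset

section charge

variable {ι : Type} [DecidableEq ι]

theorem w_ge_one {s : ℕ} (h : 2 ≤ s) : (1 : ℝ) ≤ 4 - 6 / (s : ℝ) := by
  have h1 : (2 : ℝ) ≤ s := by exact_mod_cast h
  have h2 : 6 / (s : ℝ) ≤ 3 := by
    rw [div_le_iff₀ (by linarith)]
    linarith
  linarith

theorem w_ge_of_four {s : ℕ} (h : 4 ≤ s) : (5 / 2 : ℝ) ≤ 4 - 6 / (s : ℝ) := by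
  have h1 : (4 : ℝ) ≤ s := by exact_mod_cast h
  have h2 : 6 / (s : ℝ) ≤ 3 / 2 := by
    rw [div_le_iff₀ (by linarith)]
    linarith
  linarith

theorem w_small {s : ℕ} (h : 2 ≤ s) (h' : s ≤ 3) : (4 - 6 / (s : ℝ)) = ((s - 1 : ℕ) : ℝ) := by
  interval_cases s <;> norm_num

theorem w_large {s : ℕ} (h : 167 ≤ s) : (396 / 100 : ℝ) ≤ 4 - 6 / (s : ℝ) := by
  have h1 : (167 : ℝ) ≤ s := by exact_mod_cast h
  have h2 : 6 / (s : ℝ) ≤ 4 / 100 := by
    rw [div_le_iff₀ (by linarith)]
    linarith
  linarith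

theorem charge (I : Finset ι) (s : ι → ℕ) (W : ℕ) (hW : 1000 ≤ W) (h2 : ∀ i ∈ I, 2 ≤ s i)
    (hs : ∀ i ∈ I, s i ≤ W) (hsum : W + 1 ≤ ∑ i ∈ I, (s i - 1)) :
    (((∑ i ∈ I, (s i - 1) = W + 1) ∧ ∃ i ∈ I, s i = W) ∧
      -(6 / (W : ℝ)) ≤ ∑ i ∈ I, (4 - 6 / (s i : ℝ)) - 6) ∨
    (1 / 16 : ℝ) * I.card ≤ ∑ i ∈ I, (4 - 6 / (s i : ℝ)) - 6 := by
  by_cases h7 : 7 ≤ I.card
  · right
    have h1 : (I.card : ℝ) ≤ ∑ i ∈ I, (4 - 6 / (s i : ℝ)) := by
      have := Finset.card_nsmul_le_sum I (fun i => 4 - 6 / (s i : ℝ)) 1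
        (fun i hi => w_ge_one (h2 i hi))
      simpa using this
    have h3 : (7 : ℝ) ≤ I.card := by exact_mod_cast h7
    linarith
  · push Not at h7
    obtain ⟨i0, hi0, hbig⟩ : ∃ i0 ∈ I, 167 ≤ s i0 := by
      by_contra hcon
      push Not at hcon
      have h1 : ∑ i ∈ I, (s i - 1) ≤ I.card • 165 :=
        Finset.sum_le_card_nsmul _ _ _ (fun i hi => by have := hcon i hi; omega)
      rw [smul_eq_mul] at h1
      have : I.card * 165 ≤ 6 * 165 := Nat.mul_le_mul_right _ (by omega)
      omega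
    have hsplit : ∑ i ∈ I, (s i - 1) = (s i0 - 1) + ∑ i ∈ I.erase i0, (s i - 1) :=
      (Finset.add_sum_erase I (fun i => s i - 1) hi0).symm
    have hsplit' : ∑ i ∈ I, (4 - 6 / (s i : ℝ)) =
        (4 - 6 / (s i0 : ℝ)) + ∑ i ∈ I.erase i0, (4 - 6 / (s i : ℝ)) :=
      (Finset.add_sum_erase I (fun i => 4 - 6 / (s i : ℝ)) hi0).symm
    have hW0 := hs i0 hi0
    have hmem : ∀ i ∈ I.erase i0, i ∈ I := fun i hi => Finset.mem_of_mem_erase hi
    by_cases h3 : 3 ≤ ∑ i ∈ I.erase i0, (s i - 1)
    · right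
      have h4 : (5 / 2 : ℝ) ≤ ∑ i ∈ I.erase i0, (4 - 6 / (s i : ℝ)) := by
        by_cases h5 : ∃ i ∈ I.erase i0, 4 ≤ s i
        · obtain ⟨i, hi, h6⟩ := h5
          refine (w_ge_of_four h6).trans ?_
          exact Finset.single_le_sum (f := fun i => 4 - 6 / (s i : ℝ))
            (fun j hj => by have := w_ge_one (h2 j (hmem j hj)); linarith) hi
        · push Not at h5
          have h6 : ∑ i ∈ I.erase i0, (4 - 6 / (s i : ℝ)) =
              ((∑ i ∈ I.erase i0, (s i - 1) : ℕ) : ℝ) := by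
            push_cast
            refine Finset.sum_congr rfl fun i hi => ?_
            exact w_small (h2 i (hmem i hi)) (by have := h5 i hi; omega)
          rw [h6]
          have : (3 : ℝ) ≤ ((∑ i ∈ I.erase i0, (s i - 1) : ℕ) : ℝ) := by exact_mod_cast h3
          linarith
      have h5 := w_large hbig
      have h6 : (I.card : ℝ) ≤ 6 := by exact_mod_cast (by omega : I.card ≤ 6)
      rw [hsplit']
      linarith
    · left
      have h4 : ∑ i ∈ I.erase i0, (s i - 1) = 2 := by omega
      have h5 : s i0 = W := by omega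
      refine ⟨⟨by omega, i0, hi0, h5⟩, ?_⟩
      have h6 : ∑ i ∈ I.erase i0, (4 - 6 / (s i : ℝ)) =
          ((∑ i ∈ I.erase i0, (s i - 1) : ℕ) : ℝ) := by
        push_cast
        refine Finset.sum_congr rfl fun i hi => ?_
        have h7 : s i - 1 ≤ ∑ i ∈ I.erase i0, (s i - 1) :=
          Finset.single_le_sum (f := fun i => s i - 1) (fun _ _ => Nat.zero_le _) hi
        exact w_small (h2 i (hmem i hi)) (by omega)
      rw [hsplit', h6, h4, h5]
      push_cast
      linarith

end charge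

section count

variable {V ι : Type} [DecidableEq V] [DecidableEq ι] (E : ι → Finset V) (U : Finset V)
  (J : Finset ι)

/-- the incidences -/
def inc : Finset (V × ι) := (U ×ˢ J).filter fun p => p.1 ∈ E p.2

/-- the hyperedges at `v` -/
def Iv (v : V) : Finset ι := J.filter fun i => v ∈ E i

/-- the part of the hyperedge `i` in `U` -/
def Ei (i : ι) : Finset V := U.filter fun v => v ∈ E i

/-- special vertices -/
def Spec (W : ℕ) : Finset V := U.filter fun v =>
  (∑ i ∈ Iv E J v, ((Ei E U i).card - 1) = W + 1) ∧ ∃ i ∈ Iv E J v, (Ei E U i).card = W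

omit [DecidableEq ι] in
theorem sum_inc_left (f : V × ι → ℝ) :
    ∑ p ∈ inc E U J, f p = ∑ v ∈ U, ∑ i ∈ Iv E J v, f (v, i) := by
  simp only [inc, Iv, Finset.sum_filter, Finset.sum_product]

omit [DecidableEq ι] in
theorem sum_inc_right (f : V × ι → ℝ) :
    ∑ p ∈ inc E U J, f p = ∑ i ∈ J, ∑ v ∈ Ei E U i, f (v, i) := by
  simp only [inc, Ei, Finset.sum_filter, Finset.sum_product]
  exact Finset.sum_comm

theorem card_inc_left : ((inc E U J).card : ℝ) = ∑ v ∈ U, ((Iv E J v).card : ℝ) := by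
  have := sum_inc_left E U J (fun _ => 1)
  simpa using this

theorem card_inc_right : ((inc E U J).card : ℝ) = ∑ i ∈ J, ((Ei E U i).card : ℝ) := by
  have := sum_inc_right E U J (fun _ => 1)
  simpa using this

theorem good_exists (g W : ℕ) (hW : 10000 * (g + 1) ≤ W)
    (h2 : ∀ i ∈ J, 2 ≤ (Ei E U i).card) (hs : ∀ i ∈ J, (Ei E U i).card ≤ W)
    (hdeg : ∀ v ∈ U, W + 1 ≤ ∑ i ∈ Iv E J v, ((Ei E U i).card - 1)) (hU : U.Nonempty)
    {P : Type} [Fintype P] [DecidableEq P] (D : P → Finset (V × ι))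
    (hD : ∀ X, D X ⊆ inc E U J) (h6 : ∀ X, 6 ≤ (D X).card)
    (htwo : ∀ p, (univ.filter fun X => p ∈ D X).card ≤ 2)
    (hcard : (inc E U J).card ≤ U.card + J.card + 2 * g + Fintype.card P) :
    ∃ i ∈ J, (Ei E U i).card = W ∧ 4 ≤ ((Ei E U i).filter (· ∈ Spec E U J W)).card ∧
      ∃ X, (D X).card = 6 ∧ (∀ p ∈ D X, p.1 ∈ Spec E U J W) ∧ ∃ p ∈ D X, p.2 = i := by
  classical
  by_contra hcon
  push Not at hcon
  set S := Spec E U J W with hS
  set A := inc E U J with hA
  have hWr : (10000 : ℝ) * (g + 1) ≤ W := by exact_mod_cast hW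
  have hg0 : (0 : ℝ) ≤ g := Nat.cast_nonneg g
  have hWpos : (0 : ℝ) < W := by linarith
  set Jb := J.filter fun i => (Ei E U i).card = W with hJb
  set B : ℝ := (Jb.card : ℝ) with hB
  set p : ℝ := (Fintype.card P : ℝ) with hp
  set R : ℝ := ∑ q ∈ A, (if q.1 ∈ S then (0 : ℝ) else 1) with hR
  -- charges
  have hsumJ : ∑ q ∈ A, 6 / ((Ei E U q.2).card : ℝ) = 6 * (J.card : ℝ) := by
    rw [hA, sum_inc_right]
    have : ∀ i ∈ J, ∑ v ∈ Ei E U i, 6 / ((Ei E U i).card : ℝ) = 6 := by
      intro i hi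
      rw [Finset.sum_const, nsmul_eq_mul]
      have h3 : ((Ei E U i).card : ℝ) ≠ 0 := by
        have := h2 i hi
        exact_mod_cast (by omega : (Ei E U i).card ≠ 0)
      field_simp
    rw [Finset.sum_congr rfl this, Finset.sum_const, nsmul_eq_mul]
    ring
  have hch : ∀ v ∈ U, (if v ∈ S then -(6 / (W : ℝ)) else (1 / 16) * ((Iv E J v).card : ℝ)) ≤
      ∑ i ∈ Iv E J v, (4 - 6 / ((Ei E U i).card : ℝ)) - 6 := by
    intro v hv
    have h3 := charge (Iv E J v) (fun i => (Ei E U i).card) W (by omega)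
      (fun i hi => h2 i (Finset.mem_filter.mp hi).1) (fun i hi => hs i (Finset.mem_filter.mp hi).1)
      (hdeg v hv)
    by_cases hvS : v ∈ S
    · rw [if_pos hvS]
      rcases h3 with h3 | h3
      · exact h3.2
      · refine le_trans ?_ h3
        have : (0 : ℝ) ≤ 6 / (W : ℝ) := by positivity
        have h4 : (0 : ℝ) ≤ (1 / 16) * ((Iv E J v).card : ℝ) := by positivity
        linarith
    · rw [if_neg hvS]
      rcases h3 with h3 | h3
      · exact absurd (Finset.mem_filter.mpr ⟨hv, h3.1⟩) hvS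
      · exact h3
  have hRv : R = ∑ v ∈ U, (if v ∈ S then (0 : ℝ) else ((Iv E J v).card : ℝ)) := by
    rw [hR, hA, sum_inc_left]
    refine Finset.sum_congr rfl fun v _ => ?_
    by_cases hv : v ∈ S <;> simp [hv]
  have hSU : S ⊆ U := Finset.filter_subset _ _
  have hcharge : R / 16 - 6 / W * S.card ≤ 4 * (A.card : ℝ) - 6 * J.card - 6 * U.card := by
    have h3 := Finset.sum_le_sum hch
    rw [Finset.sum_sub_distrib, ← sum_inc_left E U J (fun q => 4 - 6 / ((Ei E U q.2).card : ℝ)),
      ← hA, Finset.sum_sub_distrib, hsumJ] at h3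
    simp only [Finset.sum_const, nsmul_eq_mul] at h3
    have h4 : ∑ v ∈ U, (if v ∈ S then -(6 / (W : ℝ)) else (1 / 16) * ((Iv E J v).card : ℝ)) =
        R / 16 - 6 / W * S.card := by
      have h5 : ∀ v ∈ U, (if v ∈ S then -(6 / (W : ℝ)) else (1 / 16) * ((Iv E J v).card : ℝ)) =
          (1 / 16) * (if v ∈ S then (0 : ℝ) else ((Iv E J v).card : ℝ)) -
            (6 / W) * (if v ∈ S then (1 : ℝ) else 0) := by
        intro v _
        by_cases hv : v ∈ S <;> simp [hv]
      rw [Finset.sum_congr rfl h5, Finset.sum_sub_distrib, ← Finset.mul_sum, ← Finset.mul_sum,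
        ← hRv, Finset.sum_ite_mem, Finset.inter_eq_right.mpr hSU]
      simp
      ring
    rw [h4] at h3
    linarith
  -- the number of special vertices
  have hSB : (S.card : ℝ) ≤ W * B := by
    have h3 : S ⊆ Jb.biUnion fun i => Ei E U i := by
      intro v hv
      obtain ⟨hvU, _, i, hi, h4⟩ := Finset.mem_filter.mp hv
      obtain ⟨hi1, hi2⟩ := Finset.mem_filter.mp hi
      exact Finset.mem_biUnion.mpr ⟨i, Finset.mem_filter.mpr ⟨hi1, h4⟩,
        Finset.mem_filter.mpr ⟨hvU, hi2⟩⟩
    have h4 : S.card ≤ Jb.card * W :=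
      (Finset.card_le_card h3).trans (Finset.card_biUnion_le_card_mul _ _ _ (fun i hi =>
        (Finset.mem_filter.mp hi).2.le))
    have h5 : (S.card : ℝ) ≤ Jb.card * W := by exact_mod_cast h4
    rw [hB]
    linarith
  have hcardr : (A.card : ℝ) ≤ U.card + J.card + 2 * g + p := by
    rw [hp]
    exact_mod_cast hcard
  have hmain : 2 * (A.card : ℝ) - 6 * p + R / 16 ≤ 12 * g + 6 * B := by
    have h3 : 6 / (W : ℝ) * S.card ≤ 6 * B := by
      rw [div_mul_eq_mul_div, div_le_iff₀ hWpos]
      nlinarith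
    linarith
  -- counting the regions
  have hswap : ∀ f : P → V × ι → ℝ, ∑ X, ∑ q ∈ D X, f X q =
      ∑ q ∈ A, ∑ X ∈ univ.filter (fun X => q ∈ D X), f X q := by
    intro f
    refine Finset.sum_comm' ?_
    intro X q
    simp only [Finset.mem_univ, true_and, Finset.mem_filter]
    exact ⟨fun h => ⟨h, hD X h⟩, fun h => h.1⟩
  set ds : ℝ := ∑ X, ((D X).card : ℝ) with hds
  have hn : ∀ q, ((univ.filter fun X => q ∈ D X).card : ℝ) ≤ 2 := fun q => by
    exact_mod_cast htwo q
  have hds' : ds = ∑ q ∈ A, ((univ.filter fun X => q ∈ D X).card : ℝ) := by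
    have := hswap (fun _ _ => 1)
    simpa using this
  have hds2 : ds ≤ 2 * A.card := by
    rw [hds']
    have := Finset.sum_le_card_nsmul A (fun q => ((univ.filter fun X => q ∈ D X).card : ℝ)) 2
      (fun q _ => hn q)
    rw [nsmul_eq_mul] at this
    linarith
  have hds6 : 6 * p ≤ ds := by
    have := Finset.card_nsmul_le_sum (univ : Finset P) (fun X => ((D X).card : ℝ)) 6
      (fun X _ => by exact_mod_cast h6 X)
    rw [nsmul_eq_mul, Finset.card_univ] at this
    linarith
  set bad : P → ℝ := fun X => if (D X).card = 6 ∧ ∀ q ∈ D X, q.1 ∈ S then 0 else 1 with hbad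
  set T : V × ι → ℝ := fun q => ∑ X ∈ univ.filter (fun X => q ∈ D X), bad X +
    (2 - ((univ.filter fun X => q ∈ D X).card : ℝ)) + (if q.1 ∈ S then (0 : ℝ) else 1) with hT
  have hbad0 : ∀ X, 0 ≤ bad X := by
    intro X
    simp only [hbad]
    split_ifs <;> norm_num
  have hT0 : ∀ q, 0 ≤ T q := by
    intro q
    have h3 : 0 ≤ ∑ X ∈ univ.filter (fun X => q ∈ D X), bad X :=
      Finset.sum_nonneg fun X _ => hbad0 X
    have h4 := hn q
    have h5 : (0 : ℝ) ≤ (if q.1 ∈ S then (0 : ℝ) else 1) := by split_ifs <;> norm_num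
    simp only [hT]
    linarith
  -- lower bound
  have hlow : ∀ i ∈ Jb, (W : ℝ) / 2 ≤ ∑ v ∈ Ei E U i, T (v, i) := by
    intro i hi
    obtain ⟨hiJ, hiW⟩ := Finset.mem_filter.mp hi
    by_cases h4 : 4 ≤ ((Ei E U i).filter (· ∈ S)).card
    · have h5 := hcon i hiJ hiW h4
      have h7 : ∀ v ∈ Ei E U i, 2 ≤ T (v, i) := by
        intro v _
        have h8 : ∑ X ∈ univ.filter (fun X => (v, i) ∈ D X), bad X =
            ((univ.filter fun X => (v, i) ∈ D X).card : ℝ) := by
          rw [Finset.card_eq_sum_ones]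
          push_cast
          refine Finset.sum_congr rfl fun X hX => ?_
          simp only [Finset.mem_filter, Finset.mem_univ, true_and] at hX
          simp only [hbad]
          rw [if_neg]
          rintro ⟨h9, h10⟩
          exact h5 X h9 h10 _ hX rfl
        have h9 : (0 : ℝ) ≤ (if v ∈ S then (0 : ℝ) else 1) := by split_ifs <;> norm_num
        simp only [hT]
        rw [h8]
        linarith
      have h8 := Finset.card_nsmul_le_sum _ _ _ h7
      rw [nsmul_eq_mul, hiW] at h8
      linarith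
    · push Not at h4
      have h5 : ∀ v ∈ Ei E U i, (if v ∈ S then (0 : ℝ) else 1) ≤ T (v, i) := by
        intro v _
        have h3 : 0 ≤ ∑ X ∈ univ.filter (fun X => (v, i) ∈ D X), bad X :=
          Finset.sum_nonneg fun X _ => hbad0 X
        have h4 := hn (v, i)
        simp only [hT]
        linarith
      refine le_trans ?_ (Finset.sum_le_sum h5)
      have h7 : ∑ v ∈ Ei E U i, (if v ∈ S then (0 : ℝ) else 1) =
          (((Ei E U i).filter fun v => v ∉ S).card : ℝ) := by
        rw [Finset.card_filter]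
        push_cast
        refine Finset.sum_congr rfl fun v _ => ?_
        by_cases hv : v ∈ S <;> simp [hv]
      rw [h7]
      have h8 := Finset.card_filter_add_card_filter_not (s := Ei E U i) (p := fun v => v ∈ S)
      have h9 : (((Ei E U i).filter (· ∈ S)).card : ℝ) +
          (((Ei E U i).filter fun v => v ∉ S).card : ℝ) = W := by
        rw [← hiW]
        exact_mod_cast h8
      have h10 : (((Ei E U i).filter (· ∈ S)).card : ℝ) ≤ 3 := by
        exact_mod_cast (by omega : ((Ei E U i).filter (· ∈ S)).card ≤ 3)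
      linarith
  have hlow2 : B * (W / 2) ≤ ∑ q ∈ A, T q := by
    rw [hA, sum_inc_right]
    have h3 := Finset.card_nsmul_le_sum Jb (fun i => ∑ v ∈ Ei E U i, T (v, i)) (W / 2) hlow
    rw [nsmul_eq_mul] at h3
    refine h3.trans ?_
    exact Finset.sum_le_sum_of_subset_of_nonneg (Finset.filter_subset _ _)
      (fun i _ _ => Finset.sum_nonneg fun v _ => hT0 _)
  -- upper bound
  have hup : ∑ q ∈ A, T q ≤ 7 * (2 * A.card - 6 * p) + 13 * R := by
    have h3 : ∑ q ∈ A, T q = ∑ X, ((D X).card : ℝ) * bad X + (2 * A.card - ds) + R := by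
      simp only [hT, Finset.sum_add_distrib, Finset.sum_sub_distrib]
      rw [← hswap (fun X _ => bad X), ← hds', ← hR]
      simp only [Finset.sum_const, nsmul_eq_mul]
      ring
    have h4 : ∀ X, ((D X).card : ℝ) * bad X ≤ 7 * ((D X).card - 6) +
        6 * ∑ q ∈ D X, (if q.1 ∈ S then (0 : ℝ) else 1) := by
      intro X
      have h5 : (0 : ℝ) ≤ ∑ q ∈ D X, (if q.1 ∈ S then (0 : ℝ) else 1) :=
        Finset.sum_nonneg fun q _ => by split_ifs <;> norm_num
      have h7 : (6 : ℝ) ≤ (D X).card := by exact_mod_cast h6 X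
      by_cases h8 : (D X).card = 6
      · by_cases h9 : ∀ q ∈ D X, q.1 ∈ S
        · simp only [hbad]
          rw [if_pos ⟨h8, h9⟩]
          linarith
        · push Not at h9
          obtain ⟨q, hq, hqS⟩ := h9
          have h10 : (1 : ℝ) ≤ ∑ q ∈ D X, (if q.1 ∈ S then (0 : ℝ) else 1) := by
            have h11 := Finset.single_le_sum (f := fun q : V × ι => if q.1 ∈ S then (0 : ℝ) else 1)
              (fun q _ => by split_ifs <;> norm_num) hq
            simp only [hqS, if_false] at h11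
            exact h11
          have h11 : bad X ≤ 1 := by
            simp only [hbad]
            split_ifs <;> norm_num
          have h12 : ((D X).card : ℝ) = 6 := by exact_mod_cast h8
          rw [h12]
          linarith
      · have h9 : (7 : ℝ) ≤ (D X).card := by
          have := h6 X
          exact_mod_cast (by omega : 7 ≤ (D X).card)
        have h11 : bad X ≤ 1 := by
          simp only [hbad]
          split_ifs <;> norm_num
        nlinarith [hbad0 X]
    have h5 : ∑ X, ((D X).card : ℝ) * bad X ≤ 7 * (ds - 6 * p) + 12 * R := by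
      refine (Finset.sum_le_sum fun X _ => h4 X).trans ?_
      rw [Finset.sum_add_distrib, ← Finset.mul_sum, ← Finset.mul_sum, Finset.sum_sub_distrib,
        ← hds, hswap (fun _ q => if q.1 ∈ S then (0 : ℝ) else 1)]
      have h7 : ∑ q ∈ A, ∑ X ∈ univ.filter (fun X => q ∈ D X), (if q.1 ∈ S then (0 : ℝ) else 1) ≤
          2 * R := by
        rw [hR, Finset.mul_sum]
        refine Finset.sum_le_sum fun q _ => ?_
        rw [Finset.sum_const, nsmul_eq_mul]
        have h8 := hn q
        by_cases hq : q.1 ∈ S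
        · simp [hq]
        · simp only [hq, if_false]
          linarith
      have h8 : ∑ _X : P, (6 : ℝ) = 6 * p := by
        rw [Finset.sum_const, nsmul_eq_mul, Finset.card_univ, ← hp]
        ring
      rw [h8]
      linarith
    rw [h3]
    linarith
  have hR0 : 0 ≤ R := Finset.sum_nonneg fun q _ => by split_ifs <;> norm_num
  have hfin : B * (W / 2) ≤ 208 * (12 * g + 6 * B) := by
    have h3 := hlow2.trans hup
    have h4 : 0 ≤ 2 * (A.card : ℝ) - 6 * p := by linarith
    linarith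
  rcases Nat.eq_zero_or_pos Jb.card with h0 | h1
  · have hB0 : B = 0 := by rw [hB, h0]; simp
    have hS0 : S = ∅ := by
      rw [← Finset.card_eq_zero]
      have : (S.card : ℝ) ≤ 0 := by rw [hB0] at hSB; linarith
      exact_mod_cast this.antisymm (by positivity)
    have hRA : R = A.card := by
      rw [hR, hS0]
      simp
    obtain ⟨v, hv⟩ := hU
    have h3 : W + 1 ≤ A.card := by
      have h4 := hdeg v hv
      have h5 : ∑ i ∈ Iv E J v, ((Ei E U i).card - 1) ≤ ∑ i ∈ J, (Ei E U i).card := by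
        refine (Finset.sum_le_sum fun i _ => Nat.sub_le _ _).trans ?_
        exact Finset.sum_le_sum_of_subset (Finset.filter_subset _ _)
      have h7 := card_inc_right E U J
      rw [← hA] at h7
      have h8 : A.card = ∑ i ∈ J, (Ei E U i).card := by exact_mod_cast h7
      omega
    have h4 : (W : ℝ) + 1 ≤ A.card := by exact_mod_cast h3
    have h5 : 0 ≤ 2 * (A.card : ℝ) - 6 * p := by linarith
    rw [hB0] at hmain
    linarith
  · have hB1 : 1 ≤ B := by rw [hB]; exact_mod_cast h1
    nlinarith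

end count

end Pool.Agent.R377.PA
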