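import Mathlib

set_option autoImplicit false

/-!
Definitions for graphs of bounded reduced genus: rotation systems, genus, incidence graph of a
hypergraph, reduced genus.
-/

namespace Pool.Agent.R377.PA

open SimpleGraph

/-- A rotation system of a simple graph: a permutation of the darts (oriented edges) that keeps the
initial vertex and permutes the darts leaving any given vertex in a single cycle. -/
structure Rotation {W : Type} (G : SimpleGraph W) where
  next : Equiv.Perm G.Dart
  fst_next : ∀ d : G.Dart, (next d).fst = d.fst
  cyclic : ∀ d e : G.Dart, d.fst = e.fst → next.SameCycle d e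

/-- Reversal of darts. -/
def reversal {W : Type} (G : SimpleGraph W) : Equiv.Perm G.Dart :=
  Function.Involutive.toPerm Dart.symm Dart.symm_involutive

/-- The face permutation: run along the dart `d`, then leave its end vertex by the dart that
follows the reverse of `d` in the rotation. Its orbits are the facial walks. -/
def Rotation.face {W : Type} {G : SimpleGraph W} (R : Rotation G) : Equiv.Perm G.Dart :=
  (reversal G).trans R.next

/-- The number of faces: the orbits of the face permutation, and one face for every isolated
vertex. -/
noncomputable def Rotation.faces {W : Type} {G : SimpleGraph W} (R : Rotation G) : ℕ :=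
  Nat.card (Quotient (Equiv.Perm.SameCycle.setoid R.face)) +
    Nat.card {v : W // ∀ w, ¬ G.Adj v w}

/-- `G` embeds in the orientable surface of genus `g`: some rotation system has Euler
characteristic `V - E + F` at least `2 c - 2 g`, with `c` the number of components of `G`. -/
def EmbedsInGenus {W : Type} (G : SimpleGraph W) (g : ℕ) : Prop :=
  ∃ R : Rotation G,
    2 * Nat.card G.ConnectedComponent + Nat.card G.edgeSet ≤ Nat.card W + R.faces + 2 * g

/-- The orientable genus of `G` is `g`. -/
def HasGenus {W : Type} (G : SimpleGraph W) (g : ℕ) : Prop :=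
  IsLeast {h : ℕ | EmbedsInGenus G h} g

/-- The incidence graph of the hypergraph with edges `E i`, `i : ι`. -/
def incidence {V ι : Type} (E : ι → Finset V) : SimpleGraph (V ⊕ ι) where
  Adj a b := (∃ v i, v ∈ E i ∧ a = Sum.inl v ∧ b = Sum.inr i) ∨
    (∃ v i, v ∈ E i ∧ a = Sum.inr i ∧ b = Sum.inl v)
  symm := ⟨fun a b h => by
    rcases h with ⟨v, i, h, ha, hb⟩ | ⟨v, i, h, ha, hb⟩
    · exact Or.inr ⟨v, i, h, hb, ha⟩
    · exact Or.inl ⟨v, i, h, hb, ha⟩⟩
  loopless := ⟨fun a h => by
    rcases h with ⟨v, i, h, ha, hb⟩ | ⟨v, i, h, ha, hb⟩ <;> simp_all⟩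

/-- The multiplicity of `uv` in the adjacency multigraph: the number of hyperedges containing both
`u` and `v`. -/
noncomputable def mult {V ι : Type} (E : ι → Finset V) (u v : V) : ℕ :=
  Nat.card {i : ι // u ∈ E i ∧ v ∈ E i}

/-- The adjacency multigraph of the hypergraph `E` is the simple graph `G`. -/
def AdjacencyIs {V ι : Type} (E : ι → Finset V) (G : SimpleGraph V) : Prop :=
  ∀ u v : V, u ≠ v → (G.Adj u v → mult E u v = 1) ∧ (¬ G.Adj u v → mult E u v = 0)

/-- The reduced genus of `G` is `g`: the least genus of a finite hypergraph whose adjacency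
multigraph is `G`. -/
def HasReducedGenus {V : Type} (G : SimpleGraph V) (g : ℕ) : Prop :=
  IsLeast {h : ℕ | ∃ (ι : Type) (_ : Finite ι) (E : ι → Finset V),
    AdjacencyIs E G ∧ HasGenus (incidence E) h} g

/-- The point arboricity of `G` is at most `k`: the vertices can be coloured with `k` colours so
that every colour class induces a forest. -/
def PointArboricityLE {V : Type} (G : SimpleGraph V) (k : ℕ) : Prop :=
  ∃ c : V → Fin k, ∀ j, (G.induce {v | c v = j}).IsAcyclic

end Pool.Agent.R377.PA
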