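import Mathlib

set_option autoImplicit false

/-!
Colouring four vertices (two adjacent vertices `a`, `a'` and two non-adjacent vertices `b`, `x`
adjacent to both of them) with given numbers of coloured neighbours.
-/

namespace Pool.Agent.R377.PA

open Finset

section

variable {m : ℕ}

/-- indicator of equality -/
def ε (i j : Fin m) : ℕ := if i = j then 1 else 0

theorem ε_self (i : Fin m) : ε i i = 1 := by simp [ε]

theorem ε_ne {i j : Fin m} (h : i ≠ j) : ε i j = 0 := by simp [ε, h]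

theorem sum_ε (i : Fin m) : ∑ j, ε i j = 1 := by simp [ε]

theorem exists_le_one (f : Fin m → ℕ) (h : ∑ j, f j + 1 ≤ 2 * m) : ∃ j, f j ≤ 1 := by
  by_contra hcon
  push Not at hcon
  have h1 : (univ : Finset (Fin m)).card • 2 ≤ ∑ j, f j :=
    Finset.card_nsmul_le_sum _ _ _ (fun j _ => hcon j)
  rw [Finset.card_univ, Fintype.card_fin, smul_eq_mul] at h1
  omega

theorem eq_two (f : Fin m → ℕ) (h : ∑ j, f j ≤ 2 * m) (h2 : ∀ j, 2 ≤ f j) (j : Fin m) :
    f j = 2 := by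
  by_contra hne
  have h3 : 3 ≤ f j := by have := h2 j; omega
  have h4 := Finset.add_sum_erase (univ : Finset (Fin m)) f (Finset.mem_univ j)
  have h5 : ((univ : Finset (Fin m)).erase j).card • 2 ≤ ∑ i ∈ (univ : Finset (Fin m)).erase j, f i :=
    Finset.card_nsmul_le_sum _ _ _ (fun j _ => h2 j)
  rw [Finset.card_erase_of_mem (Finset.mem_univ j), Finset.card_univ, Fintype.card_fin,
    smul_eq_mul] at h5
  have hm : 0 < m := j.pos
  omega

/-- order `b, x, a', a` -/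
def O1 (fa fa' fb fx : Fin m → ℕ) : Prop :=
  ∃ β ξ α' α, fb β ≤ 1 ∧ fx ξ ≤ 1 ∧ fa' α' + ε β α' + ε ξ α' ≤ 1 ∧
    fa α + ε β α + ε ξ α + ε α' α ≤ 1

/-- order `a, a', b, x` -/
def O3 (fa fa' fb fx : Fin m → ℕ) : Prop :=
  ∃ α α' β ξ, fa α ≤ 1 ∧ fa' α' + ε α α' ≤ 1 ∧ fb β + ε α β + ε α' β ≤ 1 ∧
    fx ξ + ε α ξ + ε α' ξ ≤ 1

/-- order `x, a, b, a'` -/
def O2 (fa fa' fb fx : Fin m → ℕ) : Prop :=
  ∃ ξ α β α', fx ξ ≤ 1 ∧ fa α + ε ξ α ≤ 1 ∧ fb β + ε α β ≤ 1 ∧
    fa' α' + ε ξ α' + ε α α' + ε β α' ≤ 1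

theorem two_valid (f : Fin m → ℕ) (h : ∑ j, f j + 2 ≤ 2 * m) (h1 : ∀ j, 1 ≤ f j) :
    ∃ i j, i ≠ j ∧ f i ≤ 1 ∧ f j ≤ 1 := by
  obtain ⟨i, hi⟩ := exists_le_one f (by omega)
  obtain ⟨j, hj⟩ := exists_le_one (fun j => f j + ε i j) (by
    rw [Finset.sum_add_distrib, sum_ε]; omega)
  refine ⟨i, j, ?_, hi, by omega⟩
  rintro rfl
  rw [ε_self] at hj
  have := h1 i
  omega

theorem core {fa fa' fb fx : Fin m → ℕ} (ha : ∑ j, fa j + 3 ≤ 2 * m)
    (ha' : ∑ j, fa' j + 3 ≤ 2 * m) (h1 : ¬ O1 fa fa' fb fx) (h1' : ¬ O1 fa' fa fb fx)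
    {β ξ : Fin m} (hβ : fb β ≤ 1) (hξ : fx ξ ≤ 1) :
    ∃ α, (∀ j, fa j + ε β j + ε ξ j + ε α j = 2) ∧ (∀ j, fa' j + ε β j + ε ξ j + ε α j = 2) := by
  obtain ⟨α', hα'⟩ := exists_le_one (fun j => fa' j + ε β j + ε ξ j) (by
    simp only [Finset.sum_add_distrib, sum_ε]; omega)
  obtain ⟨α, hα⟩ := exists_le_one (fun j => fa j + ε β j + ε ξ j) (by
    simp only [Finset.sum_add_distrib, sum_ε]; omega)
  have h2 : ∀ j, fa j + ε β j + ε ξ j + ε α' j = 2 := by
    refine eq_two (fun j => fa j + ε β j + ε ξ j + ε α' j) (by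
      simp only [Finset.sum_add_distrib, sum_ε]; omega) ?_
    intro j
    by_contra hcon
    push Not at hcon
    exact h1 ⟨β, ξ, α', j, hβ, hξ, hα', by omega⟩
  have h3 : ∀ j, fa' j + ε β j + ε ξ j + ε α j = 2 := by
    refine eq_two (fun j => fa' j + ε β j + ε ξ j + ε α j) (by
      simp only [Finset.sum_add_distrib, sum_ε]; omega) ?_
    intro j
    by_contra hcon
    push Not at hcon
    exact h1' ⟨β, ξ, α, j, hβ, hξ, hα, by omega⟩
  have h4 : α' = α := by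
    by_contra hne
    have := h2 α
    rw [ε_ne hne] at this
    omega
  subst h4
  exact ⟨α', h2, h3⟩

theorem case_zero {fa fa' fb fx : Fin m → ℕ} 
    (hE : ∀ β ξ, fb β ≤ 1 → fx ξ ≤ 1 → ∃ α, (∀ j, fa j + ε β j + ε ξ j + ε α j = 2) ∧
      (∀ j, fa' j + ε β j + ε ξ j + ε α j = 2)) (hx : ∑ j, fx j + 2 ≤ 2 * m)
    (h3 : ¬ O3 fa fa' fb fx) (h2 : ¬ O2 fa fa' fb fx) {β : Fin m} (hβ : fb β = 0) : False := by
  obtain ⟨ξ, hξ⟩ := exists_le_one fx (by omega)
  obtain ⟨α, hα, hα'⟩ := hE β ξ (by omega) hξ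
  have h4 := hα β
  rw [ε_self] at h4
  -- another colour
  obtain ⟨t, hne, ht⟩ : ∃ t, β ≠ t ∧ fa' t ≤ 1 := by
    by_cases h5 : β = ξ
    · subst h5
      have h6 : β ≠ α := by
        rintro rfl
        rw [ε_self] at h4
        omega
      refine ⟨α, h6, ?_⟩
      have := hα' α
      rw [ε_self] at this
      omega
    · refine ⟨ξ, h5, ?_⟩
      have := hα' ξ
      rw [ε_self] at this
      omega
  have h5 : ∀ j, fx j + ε β j + ε t j = 2 := by
    refine eq_two (fun j => fx j + ε β j + ε t j) (by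
      simp only [Finset.sum_add_distrib, sum_ε]; omega) ?_
    intro j
    by_contra hcon
    push Not at hcon
    refine h3 ⟨β, t, β, j, by omega, ?_, ?_, by omega⟩
    · rw [ε_ne hne]; omega
    · rw [ε_self, ε_ne hne.symm]; omega
  have h6 := h5 β
  rw [ε_self, ε_ne hne.symm] at h6
  obtain ⟨α2, h7, h8⟩ := hE β β (by omega) (by omega)
  have h9 := h7 β
  rw [ε_self] at h9
  have h10 : β ≠ α2 := by
    rintro rfl
    rw [ε_self] at h9
    omega
  have h11 := h8 α2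
  rw [ε_self, ε_ne h10] at h11
  refine h2 ⟨β, β, β, α2, by omega, ?_, ?_, ?_⟩
  · rw [ε_self]; omega
  · rw [ε_self]; omega
  · rw [ε_ne h10]; omega

theorem diamond (fa fa' fb fx : Fin m → ℕ) (ha : ∑ j, fa j + 3 ≤ 2 * m)
    (ha' : ∑ j, fa' j + 3 ≤ 2 * m) (hb : ∑ j, fb j + 2 ≤ 2 * m) (hx : ∑ j, fx j + 2 ≤ 2 * m) :
    O1 fa fa' fb fx ∨ O1 fa' fa fb fx ∨ O3 fa fa' fb fx ∨ O2 fa fa' fb fx ∨ O2 fa fa' fx fb := by
  by_contra hcon
  push Not at hcon
  obtain ⟨h1, h1', h3, h2, h2'⟩ := hcon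
  have hE := fun β ξ (hβ : fb β ≤ 1) (hξ : fx ξ ≤ 1) => core ha ha' h1 h1' hβ hξ
  by_cases hb0 : ∃ β, fb β = 0
  · obtain ⟨β, hβ⟩ := hb0
    exact case_zero hE hx h3 h2 hβ
  by_cases hx0 : ∃ ξ, fx ξ = 0
  · obtain ⟨ξ, hξ⟩ := hx0
    refine case_zero (fb := fx) (fx := fb) (fa := fa) (fa' := fa') ?_ hb ?_ h2' hξ
    · intro β ξ hβ hξ
      obtain ⟨α, h4, h5⟩ := hE ξ β hξ hβ
      exact ⟨α, fun j => by have := h4 j; omega, fun j => by have := h5 j; omega⟩
    · rintro ⟨α, α', β, ξ, h4, h5, h6, h7⟩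
      exact h3 ⟨α, α', ξ, β, h4, h5, h7, h6⟩
  · push Not at hb0 hx0
    obtain ⟨β1, β2, hβ, hb1, hb2⟩ := two_valid fb hb (fun j => Nat.one_le_iff_ne_zero.mpr (hb0 j))
    obtain ⟨ξ1, ξ2, hξ, hx1, hx2⟩ := two_valid fx hx (fun j => Nat.one_le_iff_ne_zero.mpr (hx0 j))
    obtain ⟨α11, h11, -⟩ := hE β1 ξ1 hb1 hx1
    obtain ⟨α12, h12, -⟩ := hE β1 ξ2 hb1 hx2
    obtain ⟨α21, h21, -⟩ := hE β2 ξ1 hb2 hx1
    obtain ⟨α22, h22, -⟩ := hE β2 ξ2 hb2 hx2
    have key : ∀ j : Fin m, ε β1 j + ε ξ1 j + ε α11 j = ε β1 j + ε ξ2 j + ε α12 j ∧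
        ε β1 j + ε ξ1 j + ε α11 j = ε β2 j + ε ξ1 j + ε α21 j ∧
        ε β1 j + ε ξ1 j + ε α11 j = ε β2 j + ε ξ2 j + ε α22 j := by
      intro j
      have e1 := h11 j
      have e2 := h12 j
      have e3 := h21 j
      have e4 := h22 j
      omega
    have hε : ∀ i j : Fin m, ε i j = 0 ∨ i = j := fun i j => by
      by_cases h : i = j
      · exact Or.inr h
      · exact Or.inl (ε_ne h)
    have k1 := key β1
    have k2 := key β2
    have k4 := key ξ2
    rw [ε_self] at k1 k2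
    rw [ε_self] at k4
    rw [ε_ne hβ] at k2
    rw [ε_ne hξ] at k4
    have c1 : ξ1 = β2 ∨ α11 = β2 := by
      rcases hε ξ1 β2 with h | h
      · rcases hε α11 β2 with h' | h'
        · omega
        · exact Or.inr h'
      · exact Or.inl h
    have c2 : β1 = ξ2 ∨ α11 = ξ2 := by
      rcases hε β1 ξ2 with h | h
      · rcases hε α11 ξ2 with h' | h'
        · omega
        · exact Or.inr h'
      · exact Or.inl h
    rcases c1 with c1 | c1
    · have d1 : α11 = β2 := by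
        rcases hε α11 β2 with h' | h'
        · rw [c1, ε_self] at k2
          omega
        · exact h'
      rcases c2 with c2 | c2
      · rcases hε ξ1 β1 with h | h
        · rcases hε α11 β1 with h' | h'
          · rw [← c2, ε_self] at k1
            omega
          · exact hβ (by rw [← h', d1])
        · exact hβ (by rw [← h, c1])
      · exact hξ (by rw [c1, ← d1, c2])
    · rcases c2 with c2 | c2
      · rcases hε ξ1 β1 with h | h
        · rcases hε α11 β1 with h' | h'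
          · rw [← c2, ε_self] at k1
            omega
          · exact hβ (by rw [← h', c1])
        · exact hξ (by rw [h, c2])
      · rcases hε ξ1 β2 with h | h
        · have e1 : β2 = ξ2 := by rw [← c1, c2]
          rw [c1, ← e1] at k2
          simp only [ε_self] at k2
          omega
        · exact hξ (by rw [h, ← c1, c2])

end

end Pool.Agent.R377.PA
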