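import Pool.Agent.H239R2.Cover.PlanarP1
import Pool.Agent.R377.PA.Defs

set_option autoImplicit false

/-!
Regions of a set of edges of a graph embedded in a surface of genus `g`.
-/

namespace Pool.Agent.R377.PA

open SimpleGraph Pool.Agent.H239R2.Planar

noncomputable section

open Classical

section
variable {V : Type} [Fintype V] (G : SimpleGraph V) (σ : Equiv.Perm G.Dart)

theorem ker_bdry_le (hσ : IsRotation G σ) (g : ℕ)
    (heu : 2 * Nat.card G.ConnectedComponent + Nat.card G.edgeSet ≤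
      Nat.card V + (Nat.card (Face G σ) + Nat.card {v : V // ∀ w, ¬ G.Adj v w}) + 2 * g) :
    Module.finrank ℚ (LinearMap.ker (bdry G)) ≤
      Module.finrank ℚ (LinearMap.range (DD G σ)) + 2 * g := by
  have h1 := LinearMap.finrank_range_add_finrank_ker (bdry G)
  have h2 := LinearMap.finrank_range_add_finrank_ker (DD G σ)
  rw [Module.finrank_fintype_fun_eq_card] at h1 h2
  have h3 := card_le_rank_add G
  have h4 := finrank_ker_DD_le G hσ
  have h5 := card_comp_le G
  rw [Nat.card_eq_fintype_card (α := V), Nat.card_eq_fintype_card (α := Face G σ),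
    Nat.card_eq_fintype_card (α := G.edgeSet),
    Nat.card_eq_fintype_card (α := G.ConnectedComponent)] at heu
  omega

theorem card_le_regions (hσ : IsRotation G σ) (g : ℕ)
    (heu : 2 * Nat.card G.ConnectedComponent + Nat.card G.edgeSet ≤
      Nat.card V + (Nat.card (Face G σ) + Nat.card {v : V // ∀ w, ¬ G.Adj v w}) + 2 * g)
    (A : Finset (Sym2 V)) (hA : (A : Set (Sym2 V)) ⊆ G.edgeSet) :
    A.card ≤ rk A + 2 * g + Fintype.card {X : Reg G σ A // (bdr G σ A X).Nonempty} := by
  set L := (bdry G).comp (ext0 G A) with hL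
  have h1 := LinearMap.finrank_range_add_finrank_ker L
  rw [Module.finrank_fintype_fun_eq_card] at h1
  have h2 : Fintype.card {e : G.edgeSet // e.1 ∈ A} = A.card := by
    rw [← Fintype.card_coe A]
    apply Fintype.card_congr
    exact
      { toFun := fun e => ⟨e.1.1, e.2⟩
        invFun := fun e => ⟨⟨e.1, hA e.2⟩, e.2⟩
        left_inv := fun _ => rfl
        right_inv := fun _ => rfl }
  have h3 := range_le G A
  rw [← hL] at h3
  set S := (LinearMap.ker L).map (ext0 G A) with hS
  set T := LinearMap.range (DD G σ) with hT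
  have h4 : S ⊓ T ≤ Submodule.span ℚ (Set.range
      (fun X : {X : Reg G σ A // (bdr G σ A X).Nonempty} => DD G σ (ind G σ A X.1))) := by
    rintro _ ⟨⟨y, hy, rfl⟩, ψ, hψ⟩
    rw [← hψ]
    apply mem_span_of_supported
    intro d hd
    have h6 : DD G σ ψ ⟨d.edge, d.edge_mem⟩ = 0 := by
      rw [hψ]
      simp [ext0, hd]
    rw [DD_apply, sub_eq_zero] at h6
    rcases (dart_edge_eq_iff _ _).mp (dt_edge G ⟨d.edge, d.edge_mem⟩) with h7 | h7
    · rw [h7] at h6; exact h6
    · rw [h7, Dart.symm_symm] at h6; exact h6.symm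
  have h5 : Module.finrank ℚ (S ⊓ T : Submodule ℚ (G.edgeSet → ℚ)) ≤
      Fintype.card {X : Reg G σ A // (bdr G σ A X).Nonempty} :=
    (Submodule.finrank_mono h4).trans (finrank_range_le_card _)
  have h6 : S ⊔ T ≤ LinearMap.ker (bdry G) := by
    apply sup_le
    · rintro _ ⟨y, hy, rfl⟩
      exact hy
    · rintro _ ⟨ψ, rfl⟩
      exact bdry_DD G hσ ψ
  have h7 := Submodule.finrank_mono h6
  have h8 := Submodule.finrank_sup_add_finrank_inf_eq S T
  have h9 := ker_bdry_le G σ hσ g heu
  rw [← hT] at h9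
  have h10 : Module.finrank ℚ S = Module.finrank ℚ (LinearMap.ker L) :=
    (Submodule.equivMapOfInjective _ (ext0_inj G A) (LinearMap.ker L)).finrank_eq.symm
  omega

theorem rk_le (A : Finset (Sym2 V)) (U : Finset V) (h : ∀ e ∈ A, ∀ v ∈ e, v ∈ U) :
    rk A ≤ U.card := by
  unfold rk
  have h1 : Submodule.span ℚ {x : V → ℚ | ∃ u v : V, s(u, v) ∈ A ∧ x = Pi.single u 1 - Pi.single v 1}
      ≤ Submodule.span ℚ (Set.range fun u : U => (Pi.single u.1 1 : V → ℚ)) := by
    rw [Submodule.span_le]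
    rintro _ ⟨u, v, huv, rfl⟩
    apply Submodule.sub_mem
    · exact Submodule.subset_span ⟨⟨u, h _ huv u (Sym2.mem_mk_left u v)⟩, rfl⟩
    · exact Submodule.subset_span ⟨⟨v, h _ huv v (Sym2.mem_mk_right u v)⟩, rfl⟩
  refine (Submodule.finrank_mono h1).trans ?_
  refine (finrank_range_le_card _).trans ?_
  simp

/-- every edge lies in the boundary of at most two regions -/
theorem card_reg_le (A : Finset (Sym2 V)) (e : Sym2 V) :
    (Finset.univ.filter fun X : Reg G σ A => e ∈ bdr G σ A X).card ≤ 2 := by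
  by_cases hd : ∃ d : G.Dart, d.edge = e
  · obtain ⟨d, rfl⟩ := hd
    have h2 : (Finset.univ.filter fun X => d.edge ∈ bdr G σ A X) ⊆
        {reg G σ A d, reg G σ A d.symm} := by
      intro X hX
      simp only [Finset.mem_filter, Finset.mem_univ, true_and] at hX
      rw [mem_bdr] at hX
      simp only [Finset.mem_insert, Finset.mem_singleton]
      by_contra h
      push Not at h
      exact hX ⟨fun h3 => absurd h3.symm h.1, fun h3 => absurd h3.symm h.2⟩
    exact (Finset.card_le_card h2).trans Finset.card_le_two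
  · have h2 : (Finset.univ.filter fun X => e ∈ bdr G σ A X) = ∅ := by
      rw [Finset.filter_eq_empty_iff]
      intro X _ hX
      rw [bdr, Finset.mem_filter] at hX
      obtain ⟨_, d, hd', _⟩ := hX
      exact hd ⟨d, hd'⟩
    rw [h2]
    simp

/-- The regions of a set of edges of a graph of genus at most `g`. -/
theorem regions (g : ℕ) (hg : EmbedsInGenus G g) (A : Finset (Sym2 V))
    (hA : (A : Set (Sym2 V)) ⊆ G.edgeSet) (U : Finset V) (hU : ∀ e ∈ A, ∀ v ∈ e, v ∈ U) :
    ∃ (P : Type) (_ : Finite P) (D : P → Finset (Sym2 V)), (∀ X, D X ⊆ A) ∧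
      (∀ X, (D X).Nonempty) ∧ (∀ X v, Even {e | e ∈ D X ∧ v ∈ e}.ncard) ∧
      (∀ e, {X | e ∈ D X}.ncard ≤ 2) ∧ A.card ≤ U.card + 2 * g + Nat.card P := by
  obtain ⟨R, hR⟩ := hg
  have hσ : IsRotation G R.next := ⟨R.fst_next, R.cyclic⟩
  have hface : R.face = facePerm G R.next := by
    ext d <;> rfl
  unfold Rotation.faces at hR
  rw [hface] at hR
  have h1 := card_le_regions G R.next hσ g hR A hA
  have h2 := rk_le A U hU
  refine ⟨{X : Reg G R.next A // (bdr G R.next A X).Nonempty}, inferInstance,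
    fun X => bdr G R.next A X.1, fun X => Finset.filter_subset _ _, fun X => X.2, ?_, ?_, ?_⟩
  · rintro ⟨X, hX⟩ v
    have h4 := bdr_even G hσ A X v
    rw [← Set.ncard_coe_finset] at h4
    convert h4 using 2
    ext e
    simp
  · intro e
    have h4 := card_reg_le G R.next A e
    refine le_trans ?_ h4
    rw [← Set.ncard_coe_finset]
    refine Set.ncard_le_ncard_of_injOn Subtype.val ?_ Subtype.val_injective.injOn
      (Finset.finite_toSet _)
    intro X hX
    simpa using hX
  · rw [Nat.card_eq_fintype_card]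
    omega

end

/-- the edge of the incidence graph -/
def ed {V ι : Type} (p : V × ι) : Sym2 (V ⊕ ι) := s(Sum.inl p.1, Sum.inr p.2)

theorem ed_inj {V ι : Type} : Function.Injective (ed : V × ι → Sym2 (V ⊕ ι)) := by
  rintro ⟨a, b⟩ ⟨c, d⟩ h
  simpa [ed] using h

theorem incidence_regions {V ι : Type} [Fintype V] [Fintype ι] (E : ι → Finset V) (g : ℕ)
    (hg : EmbedsInGenus (incidence E) g) (A : Finset (V × ι)) (hA : ∀ p ∈ A, p.1 ∈ E p.2)
    (U : Finset V) (J : Finset ι) (hU : ∀ p ∈ A, p.1 ∈ U) (hJ : ∀ p ∈ A, p.2 ∈ J) :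
    ∃ (P : Type) (_ : Fintype P) (D : P → Finset (V × ι)), (∀ X, D X ⊆ A) ∧
      (∀ X, (D X).Nonempty) ∧ (∀ X v, Even ((D X).filter (fun p => p.1 = v)).card) ∧
      (∀ X i, Even ((D X).filter (fun p => p.2 = i)).card) ∧
      (∀ p, (Finset.univ.filter fun X => p ∈ D X).card ≤ 2) ∧
      A.card ≤ U.card + J.card + 2 * g + Fintype.card P := by
  set B : Finset (Sym2 (V ⊕ ι)) := A.image ed with hB
  have hBE : (B : Set (Sym2 (V ⊕ ι))) ⊆ (incidence E).edgeSet := by
    intro e he
    rw [hB, Finset.coe_image] at he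
    obtain ⟨p, hp, rfl⟩ := he
    exact Or.inl ⟨p.1, p.2, hA p hp, rfl, rfl⟩
  have hU' : ∀ e ∈ B, ∀ v ∈ e, v ∈ U.disjSum J := by
    intro e he v hv
    rw [hB, Finset.mem_image] at he
    obtain ⟨p, hp, rfl⟩ := he
    rw [ed, Sym2.mem_iff] at hv
    rcases hv with rfl | rfl
    · simpa using hU p hp
    · simpa using hJ p hp
  obtain ⟨P, hP, D, h1, h2, h3, h4, h5⟩ := regions (incidence E) g hg B hBE _ hU'
  have h6 : B.card = A.card := Finset.card_image_of_injective _ ed_inj
  have hDe : ∀ X e, e ∈ D X → ∃ p ∈ A, ed p = e := by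
    intro X e he
    have := h1 X he
    rw [hB, Finset.mem_image] at this
    exact this
  letI : Fintype P := Fintype.ofFinite P
  refine ⟨P, inferInstance, fun X => A.filter fun p => ed p ∈ D X,
    fun X => Finset.filter_subset _ _, ?_, ?_, ?_, ?_, ?_⟩
  · intro X
    obtain ⟨e, he⟩ := h2 X
    obtain ⟨p, hp, rfl⟩ := hDe X e he
    exact ⟨p, Finset.mem_filter.mpr ⟨hp, he⟩⟩
  · intro X v
    have h7 := h3 X (Sum.inl v)
    have h8 : {e | e ∈ D X ∧ Sum.inl v ∈ e} =
        ed '' (((A.filter fun p => ed p ∈ D X).filter (fun p => p.1 = v) : Finset (V × ι)) :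
          Set (V × ι)) := by
      ext e
      simp only [Finset.coe_filter, Set.mem_image, Finset.mem_filter]
      constructor
      · rintro ⟨h9, h10⟩
        obtain ⟨p, hp, rfl⟩ := hDe X e h9
        refine ⟨p, ⟨⟨hp, h9⟩, ?_⟩, rfl⟩
        rw [ed, Sym2.mem_iff] at h10
        rcases h10 with h10 | h10
        · exact (Sum.inl.inj h10).symm
        · exact absurd h10 (by simp)
      · rintro ⟨p, ⟨⟨_, h6⟩, rfl⟩, rfl⟩
        exact ⟨h6, Sym2.mem_mk_left _ _⟩
    rw [h8, Set.ncard_image_of_injective _ ed_inj, Set.ncard_coe_finset] at h7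
    exact h7
  · intro X i
    have h7 := h3 X (Sum.inr i)
    have h8 : {e | e ∈ D X ∧ Sum.inr i ∈ e} =
        ed '' (((A.filter fun p => ed p ∈ D X).filter (fun p => p.2 = i) : Finset (V × ι)) :
          Set (V × ι)) := by
      ext e
      simp only [Finset.coe_filter, Set.mem_image, Finset.mem_filter]
      constructor
      · rintro ⟨h9, h10⟩
        obtain ⟨p, hp, rfl⟩ := hDe X e h9
        refine ⟨p, ⟨⟨hp, h9⟩, ?_⟩, rfl⟩
        rw [ed, Sym2.mem_iff] at h10
        rcases h10 with h10 | h10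
        · exact absurd h10 (by simp)
        · exact (Sum.inr.inj h10).symm
      · rintro ⟨p, ⟨⟨_, h6⟩, rfl⟩, rfl⟩
        exact ⟨h6, Sym2.mem_mk_right _ _⟩
    rw [h8, Set.ncard_image_of_injective _ ed_inj, Set.ncard_coe_finset] at h7
    exact h7
  · intro p
    refine le_trans ?_ (h4 (ed p))
    rw [← Set.ncard_coe_finset]
    refine Set.ncard_le_ncard ?_ (Set.toFinite _)
    intro X hX
    simp only [Finset.coe_filter, Finset.mem_filter, Finset.mem_univ, true_and] at hX
    exact hX.2
  · rw [Finset.card_disjSum] at h5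
    rw [← Nat.card_eq_fintype_card]
    omega

end

end Pool.Agent.R377.PA
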