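import Pool.Agent.R377.PA.Defs
import Pool.Agent.R377.PA.Regions
import Pool.Agent.R377.PA.Count
import Pool.Agent.R377.PA.Color

set_option autoImplicit false

/-!
Point arboricity of graphs of bounded reduced genus and large clique number.
-/

namespace Pool.Agent.R377.PA

open Finset SimpleGraph

open Classical

section

variable {V ι : Type}

theorem linear_of [Finite ι] {G : SimpleGraph V} {E : ι → Finset V} (hE : AdjacencyIs E G) (u v : V)
    (huv : u ≠ v) (i j : ι) (h1 : u ∈ E i) (h2 : v ∈ E i) (h3 : u ∈ E j) (h4 : v ∈ E j) :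
    i = j := by
  have h5 : mult E u v ≤ 1 := by
    by_cases h : G.Adj u v
    · exact ((hE u v huv).1 h).le
    · rw [(hE u v huv).2 h]; omega
  unfold mult at h5
  rw [Finite.card_le_one_iff_subsingleton] at h5
  have := h5.elim ⟨i, h1, h2⟩ ⟨j, h3, h4⟩
  exact congrArg Subtype.val this

theorem adj_iff [Finite ι] {G : SimpleGraph V} {E : ι → Finset V} (hE : AdjacencyIs E G) (u v : V) :
    G.Adj u v ↔ u ≠ v ∧ ∃ i, u ∈ E i ∧ v ∈ E i := by
  constructor
  · intro h
    refine ⟨h.ne, ?_⟩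
    have h1 := (hE u v h.ne).1 h
    have h2 : Nonempty {i : ι // u ∈ E i ∧ v ∈ E i} := by
      unfold mult at h1
      exact (Nat.card_pos_iff.mp (by omega)).1
    obtain ⟨i, hi⟩ := h2
    exact ⟨i, hi⟩
  · rintro ⟨hne, i, h1, h2⟩
    by_contra h
    have h3 := (hE u v hne).2 h
    unfold mult at h3
    rw [Nat.card_eq_zero] at h3
    rcases h3 with h3 | h3
    · exact h3.false ⟨i, h1, h2⟩
    · exact h3.not_finite inferInstance

theorem other_row {D : Finset (V × ι)} {i : ι} (h : Even (D.filter (fun p => p.2 = i)).card)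
    {a : V} (ha : (a, i) ∈ D) : ∃ a', a' ≠ a ∧ (a', i) ∈ D := by
  by_contra hcon
  push Not at hcon
  have h1 : D.filter (fun p => p.2 = i) = {(a, i)} := by
    ext ⟨v, j⟩
    simp only [Finset.mem_filter, Finset.mem_singleton, Prod.mk.injEq]
    constructor
    · rintro ⟨h2, rfl⟩
      refine ⟨?_, rfl⟩
      by_contra h3
      exact hcon v h3 h2
    · rintro ⟨rfl, rfl⟩
      exact ⟨ha, rfl⟩
  rw [h1] at h
  simp at h

theorem other_col {D : Finset (V × ι)} {v : V} (h : Even (D.filter (fun p => p.1 = v)).card)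
    {i : ι} (ha : (v, i) ∈ D) : ∃ j, j ≠ i ∧ (v, j) ∈ D := by
  by_contra hcon
  push Not at hcon
  have h1 : D.filter (fun p => p.1 = v) = {(v, i)} := by
    ext ⟨u, j⟩
    simp only [Finset.mem_filter, Finset.mem_singleton, Prod.mk.injEq]
    constructor
    · rintro ⟨h2, rfl⟩
      refine ⟨rfl, ?_⟩
      by_contra h3
      exact hcon j h3 h2
    · rintro ⟨rfl, rfl⟩
      exact ⟨ha, rfl⟩
  rw [h1] at h
  simp at h

theorem hex {E : ι → Finset V}
    (hlin : ∀ u v, u ≠ v → ∀ i j, u ∈ E i → v ∈ E i → u ∈ E j → v ∈ E j → i = j)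
    {D : Finset (V × ι)} (hD : ∀ p ∈ D, p.1 ∈ E p.2)
    (hrow : ∀ i, Even (D.filter (fun p => p.2 = i)).card)
    (hcol : ∀ v, Even (D.filter (fun p => p.1 = v)).card) {a : V} {i : ι} (hai : (a, i) ∈ D) :
    6 ≤ D.card ∧ (D.card = 6 → ∃ a' x j j', a ≠ a' ∧ x ≠ a ∧ x ≠ a' ∧ j ≠ i ∧ j' ≠ i ∧
      (a', i) ∈ D ∧ (a, j) ∈ D ∧ (x, j) ∈ D ∧ (a', j') ∈ D ∧ (x, j') ∈ D) := by
  obtain ⟨a', ha', ha'i⟩ := other_row (hrow i) hai
  obtain ⟨j, hj, haj⟩ := other_col (hcol a) hai
  obtain ⟨x, hx, hxj⟩ := other_row (hrow j) haj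
  obtain ⟨j', hj', ha'j'⟩ := other_col (hcol a') ha'i
  obtain ⟨x', hx', hx'j'⟩ := other_row (hrow j') ha'j'
  have hjj' : j ≠ j' := by
    rintro rfl
    exact hj (hlin a a' ha'.symm _ _ (hD _ haj) (hD _ ha'j') (hD _ hai) (hD _ ha'i))
  have hxa' : x ≠ a' := by
    rintro rfl
    exact hj (hlin a x ha'.symm _ _ (hD _ haj) (hD _ hxj) (hD _ hai) (hD _ ha'i))
  have hsub : ({(a, i), (a', i), (a, j), (x, j), (a', j'), (x', j')} : Finset (V × ι)) ⊆ D := by
    intro p hp
    simp only [Finset.mem_insert, Finset.mem_singleton] at hp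
    rcases hp with rfl | rfl | rfl | rfl | rfl | rfl <;> assumption
  have hcard : ({(a, i), (a', i), (a, j), (x, j), (a', j'), (x', j')} :
      Finset (V × ι)).card = 6 := by
    rw [Finset.card_insert_of_notMem, Finset.card_insert_of_notMem, Finset.card_insert_of_notMem,
      Finset.card_insert_of_notMem, Finset.card_insert_of_notMem, Finset.card_singleton]
    · simp [hx'.symm]
    · simp [hjj']
    · simp [hjj', hx.symm]
    · simp [hj.symm, hj'.symm]
    · simp [hj.symm, hj'.symm, ha'.symm]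
  refine ⟨hcard ▸ Finset.card_le_card hsub, fun h6 => ?_⟩
  have heq := Finset.eq_of_subset_of_card_le hsub (by rw [hcard, h6])
  obtain ⟨k, hk, hxk⟩ := other_col (hcol x) hxj
  rw [← heq] at hxk
  simp only [Finset.mem_insert, Finset.mem_singleton, Prod.mk.injEq] at hxk
  have hxx : x = x' := by
    rcases hxk with h | h | h | h | h | h
    · exact absurd h.1 hx
    · exact absurd h.1 hxa'
    · exact absurd h.1 hx
    · exact absurd h.2 hk
    · exact absurd h.1 hxa'
    · exact h.1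
  subst hxx
  exact ⟨a', x, j, j', ha'.symm, hx, hxa', hj, hj', ha'i, haj, hxj, ha'j', hx'j'⟩

theorem degree_eq [Fintype ι] {G : SimpleGraph V} {E : ι → Finset V} (hE : AdjacencyIs E G)
    (U : Finset V) {v : V} (hv : v ∈ U) :
    (U.filter (G.Adj v)).card =
      ∑ i ∈ Iv E (univ.filter fun i => 2 ≤ (Ei E U i).card) v, ((Ei E U i).card - 1) := by
  have h1 : U.filter (G.Adj v) =
      (Iv E (univ.filter fun i => 2 ≤ (Ei E U i).card) v).biUnion
        (fun i => (Ei E U i).erase v) := by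
    ext w
    simp only [Finset.mem_filter, Finset.mem_biUnion, Iv, Ei, Finset.mem_erase]
    rw [adj_iff hE]
    constructor
    · rintro ⟨hw, hne, i, h2, h3⟩
      refine ⟨i, ⟨?_, h2⟩, hne.symm, hw, h3⟩
      have h4 : ({v, w} : Finset V) ⊆ U.filter fun v => v ∈ E i := by
        intro z hz
        simp only [Finset.mem_insert, Finset.mem_singleton] at hz
        rcases hz with rfl | rfl
        · exact Finset.mem_filter.mpr ⟨hv, h2⟩
        · exact Finset.mem_filter.mpr ⟨hw, h3⟩
      have h5 := Finset.card_le_card h4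
      rw [Finset.card_pair hne] at h5
      first
        | exact ⟨Finset.mem_univ _, h5⟩
        | exact Finset.mem_filter.mpr ⟨Finset.mem_univ _, h5⟩
    · rintro ⟨i, ⟨_, h2⟩, hne, hw, h3⟩
      exact ⟨hw, hne.symm, i, h2, h3⟩
  rw [h1, Finset.card_biUnion]
  · refine Finset.sum_congr rfl fun i hi => ?_
    rw [Finset.card_erase_of_mem]
    exact Finset.mem_filter.mpr ⟨hv, (Finset.mem_filter.mp hi).2⟩
  · intro i hi j hj hij
    rw [Function.onFun, Finset.disjoint_left]
    intro w hwi hwj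
    obtain ⟨h2, h3⟩ := Finset.mem_erase.mp hwi
    obtain ⟨_, h5⟩ := Finset.mem_erase.mp hwj
    exact hij (linear_of hE v w h2.symm i j (Finset.mem_filter.mp hi).2
      (Finset.mem_filter.mp h3).2 (Finset.mem_filter.mp hj).2 (Finset.mem_filter.mp h5).2)

theorem struct [Fintype V] [Fintype ι] {G : SimpleGraph V} {E : ι → Finset V}
    (hE : AdjacencyIs E G) {g : ℕ} (hg : EmbedsInGenus (incidence E) g) {W : ℕ}
    (hW : 10000 * (g + 1) ≤ W) (hclique : ∀ i, (E i).card ≤ W) {U : Finset V} (hU : U.Nonempty)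
    (hdeg : ∀ v ∈ U, W + 1 ≤ (U.filter (G.Adj v)).card) :
    ∃ a a' b x, a ∈ U ∧ a' ∈ U ∧ b ∈ U ∧ x ∈ U ∧ G.Adj a a' ∧ G.Adj a b ∧ G.Adj a' b ∧
      G.Adj a x ∧ G.Adj a' x ∧ ¬ G.Adj b x ∧ b ≠ x ∧ (U.filter (G.Adj a)).card = W + 1 ∧
      (U.filter (G.Adj a')).card = W + 1 ∧ (U.filter (G.Adj b)).card = W + 1 ∧
      (U.filter (G.Adj x)).card = W + 1 := by
  set J : Finset ι := univ.filter fun i => 2 ≤ (Ei E U i).card with hJ
  have hlin := fun u v (h : u ≠ v) i j h1 h2 h3 h4 => linear_of hE u v h i j h1 h2 h3 h4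
  obtain ⟨P, hP, D, hDsub, hDne, hcol, hrow, htwo, hcard⟩ := incidence_regions E g hg
    (inc E U J) (fun p hp => (Finset.mem_filter.mp hp).2) U J
    (fun p hp => (Finset.mem_product.mp (Finset.mem_filter.mp hp).1).1)
    (fun p hp => (Finset.mem_product.mp (Finset.mem_filter.mp hp).1).2)
  have hDE : ∀ X, ∀ p ∈ D X, p.1 ∈ E p.2 := fun X p hp => (Finset.mem_filter.mp (hDsub X hp)).2
  have hs : ∀ i, (Ei E U i).card ≤ W := by
    intro i
    refine le_trans (Finset.card_le_card ?_) (hclique i)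
    intro v hv
    exact (Finset.mem_filter.mp hv).2
  obtain ⟨i, hiJ, hiW, h4, X, hX6, hXS, ⟨a, i'⟩, haX, hai'⟩ := good_exists E U J g W hW
    (fun i hi => (Finset.mem_filter.mp hi).2) (fun i _ => hs i)
    (fun v hv => by rw [← degree_eq hE U hv]; exact hdeg v hv) hU D hDsub
    (fun X => by
      obtain ⟨⟨a, i⟩, h⟩ := hDne X
      exact (hex hlin (hDE X) (hrow X) (hcol X) h).1)
    (fun p => by convert htwo p) (by convert hcard)
  simp only at hai'
  subst hai'
  obtain ⟨a', x, j, j', haa', hxa, hxa', hj, hj', h5, h6, h7, h8, h9⟩ :=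
    (hex hlin (hDE X) (hrow X) (hcol X) haX).2 hX6
  have e1 := hDE X _ haX
  have e5 := hDE X _ h5
  have e6 := hDE X _ h6
  have e7 := hDE X _ h7
  have e8 := hDE X _ h8
  have e9 := hDE X _ h9
  simp only at e1 e5 e6 e7 e8 e9
  have hxi : x ∉ E i' := fun h => hj (hlin x a hxa j i' e7 e6 h e1)
  set S := Spec E U J W with hS
  have hSU : ∀ v ∈ S, v ∈ U := fun v hv => (Finset.mem_filter.mp hv).1
  have hSd : ∀ v ∈ S, (U.filter (G.Adj v)).card = W + 1 := by
    intro v hv
    rw [degree_eq hE U (hSU v hv)]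
    exact (Finset.mem_filter.mp hv).2.1
  have haS := hXS _ haX
  have ha'S := hXS _ h5
  have hxS := hXS _ h7
  simp only at haS ha'S hxS
  -- the fourth vertex
  obtain ⟨b, hb, hbx⟩ : ∃ b ∈ (Ei E U i').filter (· ∈ S), ¬ G.Adj b x := by
    by_contra hcon
    push Not at hcon
    have h10 : ∀ b ∈ (Ei E U i').filter (· ∈ S), ∃ k, b ∈ E k ∧ x ∈ E k := fun b hb =>
      ((adj_iff hE b x).mp (hcon b hb)).2
    have : Nonempty ι := ⟨i'⟩
    choose! k hk1 hk2 using h10
    have hinj : Set.InjOn k (((Ei E U i').filter (· ∈ S) : Finset V) : Set V) := by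
      intro b hb b' hb' hkk
      by_contra hne
      have hb1 := (Finset.mem_filter.mp (Finset.mem_filter.mp hb).1).2
      have hb2 := (Finset.mem_filter.mp (Finset.mem_filter.mp hb').1).2
      have h11 : k b = i' := hlin b b' hne _ _ (hk1 b hb) (hkk ▸ hk1 b' hb') hb1 hb2
      exact hxi (h11 ▸ hk2 b hb)
    have hmaps : ∀ b ∈ (Ei E U i').filter (· ∈ S), k b ∈ Iv E J x := by
      intro b hb
      refine Finset.mem_filter.mpr ⟨Finset.mem_filter.mpr ⟨Finset.mem_univ _, ?_⟩, hk2 b hb⟩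
      have hbx : b ≠ x := by
        rintro rfl
        exact hxi (Finset.mem_filter.mp (Finset.mem_filter.mp hb).1).2
      rw [← Finset.card_pair hbx]
      apply Finset.card_le_card
      intro z hz
      simp only [Finset.mem_insert, Finset.mem_singleton] at hz
      rcases hz with rfl | rfl
      · exact Finset.mem_filter.mpr ⟨(Finset.mem_filter.mp (Finset.mem_filter.mp hb).1).1,
          hk1 _ hb⟩
      · exact Finset.mem_filter.mpr ⟨hSU _ hxS, hk2 _ hb⟩
    have h11 := Finset.card_le_card_of_injOn k hmaps hinj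
    obtain ⟨_, h12, i0, hi0, h13⟩ := Finset.mem_filter.mp hxS
    have h14 := Finset.add_sum_erase (Iv E J x) (fun i => (Ei E U i).card - 1) hi0
    have h15 : ((Iv E J x).erase i0).card • 1 ≤
        ∑ i ∈ (Iv E J x).erase i0, ((Ei E U i).card - 1) := by
      refine Finset.card_nsmul_le_sum _ _ _ fun i hi => ?_
      have := (Finset.mem_filter.mp (Finset.mem_filter.mp (Finset.mem_of_mem_erase hi)).1).2
      omega
    rw [Finset.card_erase_of_mem hi0, smul_eq_mul] at h15
    omega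
  obtain ⟨hb1, hbS⟩ := Finset.mem_filter.mp hb
  have hbi := (Finset.mem_filter.mp hb1).2
  have hax : G.Adj a x := (adj_iff hE _ _).mpr ⟨hxa.symm, j, e6, e7⟩
  have ha'x : G.Adj a' x := (adj_iff hE _ _).mpr ⟨hxa'.symm, j', e8, e9⟩
  have hba : b ≠ a := by
    rintro rfl
    exact hbx hax
  have hba' : b ≠ a' := by
    rintro rfl
    exact hbx ha'x
  refine ⟨a, a', b, x, hSU _ haS, hSU _ ha'S, hSU _ hbS, hSU _ hxS,
    (adj_iff hE _ _).mpr ⟨haa', i', e1, e5⟩, (adj_iff hE _ _).mpr ⟨hba.symm, i', e1, hbi⟩,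
    (adj_iff hE _ _).mpr ⟨hba'.symm, i', e5, hbi⟩, hax, ha'x, hbx, ?_, hSd _ haS, hSd _ ha'S,
    hSd _ hbS, hSd _ hxS⟩
  rintro rfl
  exact hxi hbi

end

theorem main (g : ℕ) {V : Type} [Finite V] (G : SimpleGraph V) (hG : HasReducedGenus G g)
    (hW : 10000 * (g + 1) ≤ G.cliqueNum) : PointArboricityLE G (1 + G.cliqueNum / 2) := by
  have : Fintype V := Fintype.ofFinite V
  obtain ⟨ι, hι, E, hE, hg⟩ := hG.1
  have : Fintype ι := Fintype.ofFinite ι
  have hg' : EmbedsInGenus (incidence E) g := hg.1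
  have hclique : ∀ i, (E i).card ≤ G.cliqueNum := by
    intro i
    apply IsClique.card_le_cliqueNum
    intro u hu v hv huv
    exact (adj_iff hE u v).mpr ⟨huv, i, hu, hv⟩
  set W := G.cliqueNum with hWdef
  set m := 1 + W / 2 with hm
  have hm2 : W + 1 ≤ 2 * m := by omega
  have key : ∀ n : ℕ, ∀ U : Finset V, U.card = n → ∃ c : V → Fin m, Good G U c := by
    intro n
    induction n using Nat.strong_induction_on with
    | _ n ih =>
      intro U hUn
      rcases U.eq_empty_or_nonempty with rfl | hne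
      · refine ⟨fun _ => ⟨0, by omega⟩, ?_⟩
        intro Z hZ hZne
        rw [Finset.subset_empty.mp hZ] at hZne
        exact absurd hZne Finset.not_nonempty_empty
      by_cases hlow : ∃ v ∈ U, (U.filter (G.Adj v)).card + 1 ≤ 2 * m
      · obtain ⟨v, hv, hdv⟩ := hlow
        obtain ⟨c, hc⟩ := ih (U.erase v).card
          (hUn ▸ Finset.card_erase_lt_of_mem hv) (U.erase v) rfl
        obtain ⟨j, hj⟩ := exists_le_one (cnt G (U.erase v) c v) (by
          rw [sum_cnt]
          refine le_trans ?_ hdv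
          gcongr
          exact Finset.erase_subset _ _)
        have h1 := good_insert G hc (Finset.notMem_erase v U) hj
        rw [Finset.insert_erase hv] at h1
        exact ⟨_, h1⟩
      · push Not at hlow
        obtain ⟨a, a', b, x, ha, ha', hb, hx, h1, h2, h3, h4, h5, h6, h7, d1, d2, d3, d4⟩ :=
          struct hE hg' hW hclique hne (fun v hv => by have := hlow v hv; omega)
        refine reducible G ha ha' hb hx h1 h2 h3 h4 h5 h6 h7 (by omega) (by omega) (by omega)
          (by omega) ?_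
        refine ih _ ?_ _ rfl
        rw [← hUn]
        apply Finset.card_lt_card
        refine ⟨Finset.sdiff_subset, fun hsub => ?_⟩
        have := hsub ha
        simp at this
  obtain ⟨c, hc⟩ := key _ univ rfl
  exact ⟨c, good_acyclic G hc⟩

end Pool.Agent.R377.PA
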